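import Pool.Agent.Helper86.LK.Last

/-!
Pigeonhole: the multiples `m P`, `1 ≤ m ≤ N`, of a point of infinite order have distinct
x-coordinates, and `ξ ↦ ξ⁶ / Δ` is at most 6 to 1, so `N ≤ 6 * card F` if all the values lie in `F`.

PROOF.  `ξ (m P) = ξ (n P)` gives `m P = n P` or `m P = -(n P)` (same x-coordinate), so `m = n`.
`Finset.card_le_mul_card_image`, fibres: roots of `X ^ 6 - c` (`Polynomial.card_nthRoots` or
`Multiset.card` of `nthRoots`).
-/

namespace Pool.Agent.Helper86.LM

open WeierstrassCurve WeierstrassCurve.Affine WeierstrassCurve.Affine.Point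
open Pool.Agent.Helper86.LH

variable {K : Type*} [Field K] [DecidableEq K] (W : WeierstrassCurve.Affine K) [W.IsElliptic]

theorem pigeon (P : W.Point) (hP : ∀ n : ℕ, 0 < n → n • P ≠ 0) (F : Finset K) (N : ℕ)
    (h : ∀ m ∈ Finset.Icc 1 N, ((m • P).xRep 0 + W.b₂ / 12) ^ 6 / W.Δ ∈ F) :
    N ≤ 6 * F.card := by
  classical
  have hΔ : W.Δ ≠ 0 := W.isUnit_Δ.ne_zero
  have h1 : ∀ Q : W.Point, Q ≠ 0 → Q.xRep 1 = 1 := by
    intro Q hQ
    cases Q with
    | zero => exact absurd rfl hQ
    | some x y hh =>
      rw [xRep_some]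
      rfl
  have hlt : ∀ m n : ℕ, m < n → m • P ≠ n • P := by
    intro m n hmn he
    apply hP (n - m) (by omega)
    have h2 : m • P + (n - m) • P = m • P + 0 := by
      rw [← add_nsmul, add_zero, Nat.add_sub_cancel' hmn.le]
      exact he.symm
    exact add_left_cancel h2
  have hinj : ∀ m n : ℕ, 1 ≤ m → 1 ≤ n → (m • P).xRep 0 = (n • P).xRep 0 → m = n := by
    intro m n hm hn he
    have e : (m • P).xRep = (n • P).xRep := by
      ext i
      fin_cases i
      · exact he
      · show (m • P).xRep 1 = (n • P).xRep 1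
        rw [h1 _ (hP m (by omega)), h1 _ (hP n (by omega))]
    rcases eq_or_eq_neg_of_xRep_eq_xRep e with h2 | h2
    · by_contra hne
      rcases Nat.lt_or_gt_of_ne hne with h3 | h3
      · exact hlt m n h3 h2
      · exact hlt n m h3 h2.symm
    · exfalso
      apply hP (m + n) (by omega)
      rw [add_nsmul, h2]
      exact neg_add_cancel _
  have key := Finset.card_le_mul_card_image_of_maps_to
    (f := fun m : ℕ => ((m • P).xRep 0 + W.b₂ / 12) ^ 6 / W.Δ) (s := Finset.Icc 1 N) (t := F)
    (fun m hm => h m hm) 6 (fun b _ => by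
      have h2 : ((Finset.Icc 1 N).filter fun m : ℕ =>
          ((m • P).xRep 0 + W.b₂ / 12) ^ 6 / W.Δ = b).card ≤
          (Polynomial.nthRoots 6 (b * W.Δ)).toFinset.card := by
        apply Finset.card_le_card_of_injOn (fun m : ℕ => (m • P).xRep 0 + W.b₂ / 12)
        · intro m hm
          rw [Finset.mem_coe, Finset.mem_filter] at hm
          rw [Finset.mem_coe, Multiset.mem_toFinset, Polynomial.mem_nthRoots (by norm_num)]
          rw [← hm.2, div_mul_cancel₀ _ hΔ]
        · intro m hm n hn he
          rw [Finset.mem_coe, Finset.mem_filter, Finset.mem_Icc] at hm hn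
          exact hinj m n hm.1.1 hn.1.1 (add_right_cancel he)
      exact h2.trans ((Multiset.toFinset_card_le _).trans (Polynomial.card_nthRoots _ _)))
  rw [Nat.card_Icc] at key
  omega

end Pool.Agent.Helper86.LM
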