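import Pool.Agent.Helper86.LM.Nor
import Pool.Agent.Helper86.LM.Pig

/-!
A positive lower bound for the canonical height, uniform in the curves with bounded height of `j`.
-/

open Height AdmissibleAbsValues Filter Topology

namespace Pool.Agent.Helper86.LM

open WeierstrassCurve WeierstrassCurve.Affine WeierstrassCurve.Affine.Point NumberField
open Pool.Agent.Helper86.LH Pool.Agent.Helper86.LK

theorem uniform (K : Type*) [Field K] [NumberField K] [DecidableEq K] (B : ℝ) :
    ∃ c : ℝ, 0 < c ∧ ∀ (W : WeierstrassCurve.Affine K) [W.IsElliptic] (P : W.Point),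
      (∀ n : ℕ, 0 < n → n • P ≠ 0) → ∀ H : W.Point → ℝ,
      (∀ P : W.Point, Tendsto (fun k : ℕ => logHeight ((2 ^ k • P).xRep) / 4 ^ k)
        atTop (𝓝 (H P))) → (∀ (P : W.Point) (m : ℕ), H (m • P) = m ^ 2 * H P) →
      (∀ P : W.Point, 0 ≤ H P) → logHeight₁ W.j ≤ B → c ≤ H P := by
  set R : ℝ := 6 + 418 * totalWeight K + 3 / 2 * B with hR
  have hfin : {a : K | logHeight₁ a ≤ R}.Finite := Northcott.finite_le R
  set F := hfin.toFinset with hF
  set N := 6 * F.card + 1 with hN
  have hN0 : (0 : ℝ) < N := by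
    rw [hN]; positivity
  refine ⟨1 / (N : ℝ) ^ 2, by positivity, fun W _ P hP H hH hHm hH0 hB => ?_⟩
  by_contra hc
  rw [not_le, lt_div_iff₀ (by positivity)] at hc
  have hΔ : W.Δ ≠ 0 := W.isUnit_Δ.ne_zero
  have h6 : (6 : K) ≠ 0 := by norm_num
  obtain ⟨S, hS⟩ := exists_big (W := W) hΔ h6
  have key : N ≤ 6 * F.card := by
    refine pigeon W P hP F N fun m hm => ?_
    have hm1 := (Finset.mem_Icc.mp hm).1
    have hmN := (Finset.mem_Icc.mp hm).2
    have hne : m • P ≠ 0 := hP m hm1
    have hx1 : (m • P).xRep 1 = 1 := by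
      generalize m • P = Q at hne
      match Q, hne with
      | Point.some x y hxy, _ => rfl
      | 0, hP => exact absurd rfl hP
    have h1 := APh_le_can W hS (m • P) (hH (m • P))
    rw [hx1, hHm P m] at h1
    have h2 := height_six W hS ((m • P).xRep 0)
    have h3 : (m : ℝ) ^ 2 * H P ≤ 1 := by
      have h4 : (m : ℝ) ^ 2 ≤ (N : ℝ) ^ 2 :=
        pow_le_pow_left₀ (Nat.cast_nonneg _) (by exact_mod_cast hmN) 2
      have := mul_le_mul_of_nonneg_right h4 (hH0 P)
      linarith
    rw [hF, Set.Finite.mem_toFinset, Set.mem_ofPred_eq, hR]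
    linarith
  omega

variable {K : Type*} [Field K] [NumberField K]
  (W : WeierstrassCurve.Affine K) [W.IsElliptic]

theorem hfin_le_dmin : hfin W ≤ dmin W := by
  have hΔ : W.Δ ≠ 0 := W.isUnit_Δ.ne_zero
  have h6 : (6 : K) ≠ 0 := by norm_num
  obtain ⟨S, hS⟩ := exists_big (W := W) hΔ h6
  rw [dmin_eq W hS]
  have h2 : hfin W = ∑ v ∈ S, Real.posLog (v.val W.j) := by
    unfold hfin
    apply finsum_eq_sum_of_support_subset
    intro v hv
    by_contra hc
    apply hv
    exact posLog_of_not (hS.not_mul (fun h => hc (Finset.mem_coe.mpr h)))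
  rw [h2]
  exact Finset.sum_le_sum fun v _ => posLog_le_min W (isNonarchimedean v.val v.2) h6

end Pool.Agent.Helper86.LM
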