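import Pool.Agent.Helper86.LK.Last

/-!
The height of `ξ⁶ / Δ` for the multiples of a point, in terms of the canonical height and the
height of `j`.
-/

open Height AdmissibleAbsValues Filter Topology

namespace Pool.Agent.Helper86.LM

open WeierstrassCurve WeierstrassCurve.Affine WeierstrassCurve.Affine.Point NumberField
open Pool.Agent.Helper86.LH Pool.Agent.Helper86.LK

section compare

variable {K : Type*} [Field K] [AdmissibleAbsValues K]

theorem compare6 {X Z Y0 Y1 : K} (h : X ≠ 0 ∨ Z ≠ 0) (h' : Y0 ≠ 0 ∨ Y1 ≠ 0)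
    (S : Finset (nonarchAbsVal : Set (AbsoluteValue K ℝ)))
    (hS : ∀ v, v ∉ S → Real.log (nm v.val 1 Y0 Y1) ≤ 6 * Real.log (nm v.val 1 X Z)) :
    logHeight ![Y0, Y1] -
        (archAbsVal.map fun v : AbsoluteValue K ℝ => Real.log (nm v 1 Y0 Y1)).sum -
        ∑ v ∈ S, Real.log (nm v.val 1 Y0 Y1) ≤
      6 * (logHeight ![X, Z] -
        (archAbsVal.map fun v : AbsoluteValue K ℝ => Real.log (nm v 1 X Z)).sum -
        ∑ v ∈ S, Real.log (nm v.val 1 X Z)) := by
  classical
  rw [logHeight_pair h, logHeight_pair h']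
  set T := S ∪ (fin_nm h).toFinset ∪ (fin_nm h').toFinset with hT
  have e1 : ∑ᶠ v : (nonarchAbsVal : Set (AbsoluteValue K ℝ)), Real.log (nm v.val 1 X Z) =
      ∑ v ∈ T, Real.log (nm v.val 1 X Z) := by
    apply finsum_eq_sum_of_support_subset
    intro v hv
    simp only [hT, Finset.coe_union, Set.Finite.coe_toFinset, Set.mem_union, Finset.mem_coe,
      Set.mem_ofPred_eq]
    left; right
    intro h1
    apply hv
    simp only [h1, Real.log_one]
  have e2 : ∑ᶠ v : (nonarchAbsVal : Set (AbsoluteValue K ℝ)), Real.log (nm v.val 1 Y0 Y1) =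
      ∑ v ∈ T, Real.log (nm v.val 1 Y0 Y1) := by
    apply finsum_eq_sum_of_support_subset
    intro v hv
    simp only [hT, Finset.coe_union, Set.Finite.coe_toFinset, Set.mem_union, Finset.mem_coe,
      Set.mem_ofPred_eq]
    right
    intro h1
    apply hv
    simp only [h1, Real.log_one]
  have hST : S ⊆ T := by
    intro v hv
    simp only [hT, Finset.mem_union]
    left; left; exact hv
  rw [e1, e2, ← Finset.sum_sdiff hST, ← Finset.sum_sdiff hST]
  have : ∑ v ∈ T \ S, Real.log (nm v.val 1 Y0 Y1) ≤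
      6 * ∑ v ∈ T \ S, Real.log (nm v.val 1 X Z) := by
    rw [Finset.mul_sum]
    exact Finset.sum_le_sum fun v hv => hS v (Finset.mem_sdiff.mp hv).2
  linarith

end compare

section loc

variable {K : Type*} [Field K] {W : WeierstrassCurve.Affine K}

theorem nm_pow6 (v : AbsoluteValue K ℝ) (hΔ : W.Δ ≠ 0) (ξ : K) :
    Real.log (nm v 1 (ξ ^ 6) W.Δ) = 6 * Real.log (nm v (Dv W v) ξ 1) := by
  have hD := Dv_pos hΔ v
  have e : nm v 1 (ξ ^ 6) W.Δ = nm v (Dv W v) ξ 1 ^ 6 := by
    rw [nm, nm, map_pow, one_mul, map_one, mul_one, ← Dv_pow v]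
    rcases le_total (v ξ) (Dv W v) with h | h
    · rw [max_eq_right h, max_eq_right (pow_le_pow_left₀ (v.nonneg _) h 6)]
    · rw [max_eq_left h, max_eq_left (pow_le_pow_left₀ hD.le h 6)]
  rw [e, Real.log_pow]
  push_cast
  ring

theorem loc_six {v : AbsoluteValue K ℝ} (hv : IsNonarchimedean v) (hΔ : W.Δ ≠ 0)
    (h6 : (6 : K) ≠ 0) (x : K) :
    Real.log (nm v 1 ((x + W.b₂ / 12) ^ 6) W.Δ) ≤ 6 * loc W v x 1 - 12 * Real.log (v 6) := by
  have n6 : v 6 ≤ 1 := by
    have h6' : v ((6 : ℕ) : K) ≤ 1 := IsNonarchimedean.apply_natCast_le_one hv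
    simpa using h6'
  have n2 : v 2 ≤ 1 := by
    have h6' : v ((2 : ℕ) : K) ≤ 1 := IsNonarchimedean.apply_natCast_le_one hv
    simpa using h6'
  have n3 : v 3 ≤ 1 := by
    have h6' : v ((3 : ℕ) : K) ≤ 1 := IsNonarchimedean.apply_natCast_le_one hv
    simpa using h6'
  have p6 : 0 < v 6 := v.pos h6
  have h2 : (2 : K) ≠ 0 := fun h0 => h6 (by rw [show (6 : K) = 2 * 3 by norm_num, h0, zero_mul])
  have p2 : 0 < v 2 := v.pos h2
  have l6 : Real.log (v 6) ≤ 0 := Real.log_nonpos p6.le n6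
  have h12 : (12 : K) ≠ 0 := by
    rw [show (12 : K) = 2 * 6 by norm_num]; exact mul_ne_zero h2 h6
  have p12 : 0 < v 12 := v.pos h12
  have v12 : v 12 = v 2 * v 6 := by rw [show (12 : K) = 2 * 6 by norm_num, map_mul]
  have v12' : v 6 ^ 2 ≤ v 12 := by
    rw [v12, pow_two]
    apply mul_le_mul_of_nonneg_right _ p6.le
    rw [show (6 : K) = 2 * 3 by norm_num, map_mul]
    nlinarith [v.nonneg 2]
  have n12 : v 12 ≤ 1 := by rw [v12]; nlinarith
  unfold loc
  split_ifs with hm
  · have hl := hm.lv_pos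
    have hc4 := hm.c4
    have hlp : lv W v ^ 2 = v W.c₄ := Real.sq_sqrt hc4.le
    have hsz : v (W.b₂ + 12 * rr W) = lv W v := (tr_sizes W v hv hΔ hm).1
    set N := nm v (lv W v) (x - rr W * 1) 1 with hN
    have hN0 : 0 < N := nm_pos v hl (or_sub (Or.inr one_ne_zero) _)
    have hNl : lv W v ≤ N := by
      rw [hN, nm, map_one, mul_one (lv W v)]; exact le_max_right _ _
    have hNx : v (x - rr W * 1) ≤ N := by rw [hN, nm]; exact le_max_left _ _
    have hN12 : N ≤ N / v 12 := by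
      rw [le_div_iff₀ p12]
      nlinarith
    have e1 : v (x + W.b₂ / 12) ≤ N / v 12 := by
      have e2 : x + W.b₂ / 12 = (x - rr W * 1) + (W.b₂ + 12 * rr W) / 12 := by
        field_simp
        ring
      rw [e2]
      refine (hv _ _).trans (max_le (hNx.trans hN12) ?_)
      rw [map_div₀, hsz]
      exact div_le_div_of_nonneg_right hNl p12.le
    have e3 : v W.Δ ≤ (N / v 12) ^ 6 := by
      have e4 : v W.Δ ≤ v W.c₄ ^ 3 := le_of_lt hm
      rw [← hlp] at e4
      calc v W.Δ ≤ (lv W v ^ 2) ^ 3 := e4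
        _ = lv W v ^ 6 := by ring
        _ ≤ (N / v 12) ^ 6 := pow_le_pow_left₀ hl.le (hNl.trans hN12) 6
    have e5 : nm v 1 ((x + W.b₂ / 12) ^ 6) W.Δ ≤ (N / v 12) ^ 6 := by
      rw [nm, map_pow, one_mul]
      exact max_le (pow_le_pow_left₀ (v.nonneg _) e1 6) e3
    have e6 := Real.log_le_log (nm_pos v one_pos (Or.inr hΔ)) e5
    rw [Real.log_pow, Real.log_div hN0.ne' p12.ne'] at e6
    have e7 := Real.log_le_log (pow_pos p6 2) v12'
    rw [Real.log_pow] at e7
    push_cast at e6 e7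
    rw [locM, ← hN]
    linarith
  · rw [nm_pow6 v hΔ, locA, mul_one]
    linarith

theorem aloc_six {v : AbsoluteValue K ℝ} (hΔ : W.Δ ≠ 0) (v2 : v 2 = 2) (v3 : v 3 = 3) (x : K) :
    Real.log (nm v 1 ((x + W.b₂ / 12) ^ 6) W.Δ) ≤ 6 * aloc W v x 1 + 6 := by
  have h2 : (2 : K) ≠ 0 := fun h0 => by rw [h0, v.map_zero] at v2; norm_num at v2
  have h3 : (3 : K) ≠ 0 := fun h0 => by rw [h0, v.map_zero] at v3; norm_num at v3
  have h12 : (12 : K) ≠ 0 := by
    rw [show (12 : K) = 2 * 2 * 3 by norm_num]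
    exact mul_ne_zero (mul_ne_zero h2 h2) h3
  have v12 : v 12 = 12 := by
    rw [show (12 : K) = 2 * 2 * 3 by norm_num, map_mul, map_mul, v2, v3]
    norm_num
  unfold aloc
  split_ifs with hm
  · have hl := hm.mul.lv_pos
    have hc4 := hm.mul.c4
    have hlp : lv W v ^ 2 = v W.c₄ := Real.sq_sqrt hc4.le
    have hsz : v (W.b₂ + 12 * rr W) ≤ 2 * lv W v := (atr_sizes W v v2 v3 hΔ hm.1 hm.2).1
    set N := nm v (lv W v) (x - rr W * 1) 1 with hN
    have hN0 : 0 < N := nm_pos v hl (or_sub (Or.inr one_ne_zero) _)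
    have hNl : lv W v ≤ N := by
      rw [hN, nm, map_one, mul_one (lv W v)]; exact le_max_right _ _
    have hNx : v (x - rr W * 1) ≤ N := by rw [hN, nm]; exact le_max_left _ _
    have e1 : v (x + W.b₂ / 12) ≤ 2 * N := by
      have e2 : x + W.b₂ / 12 = (x - rr W * 1) + (W.b₂ + 12 * rr W) / 12 := by
        field_simp
        ring
      rw [e2]
      refine (v.add_le _ _).trans ?_
      rw [map_div₀, v12]
      linarith
    have e3 : v W.Δ ≤ (2 * N) ^ 6 := by
      have e4 : v W.Δ ≤ v W.c₄ ^ 3 := le_of_lt hm.mul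
      rw [← hlp] at e4
      calc v W.Δ ≤ (lv W v ^ 2) ^ 3 := e4
        _ = lv W v ^ 6 := by ring
        _ ≤ (2 * N) ^ 6 := pow_le_pow_left₀ hl.le (by linarith) 6
    have e5 : nm v 1 ((x + W.b₂ / 12) ^ 6) W.Δ ≤ (2 * N) ^ 6 := by
      rw [nm, map_pow, one_mul]
      exact max_le (pow_le_pow_left₀ (v.nonneg _) e1 6) e3
    have e6 := Real.log_le_log (nm_pos v one_pos (Or.inr hΔ)) e5
    rw [Real.log_pow, Real.log_mul (by norm_num) hN0.ne'] at e6
    have e7 : Real.log 2 ≤ 1 := by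
      have := Real.log_two_lt_d9
      linarith
    push_cast at e6
    rw [locM, ← hN]
    linarith
  · rw [nm_pow6 v hΔ, locA, mul_one]
    linarith

end loc

variable {K : Type*} [Field K] [NumberField K] [DecidableEq K]
  (W : WeierstrassCurve.Affine K) [W.IsElliptic]

theorem log_six_le : Real.log 6 ≤ 1.8 := by
  rw [Real.log_le_iff_le_exp (by norm_num)]
  have e1 : (2.7182818283 : ℝ) < Real.exp 1 := Real.exp_one_gt_d9
  have e2 : Real.exp 1.8 = Real.exp 1 ^ 1 * Real.exp 0.8 := by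
    rw [pow_one, ← Real.exp_add]; norm_num
  have e3 : (2.224 : ℝ) ≤ Real.exp 0.8 := by
    have := Real.sum_le_exp_of_nonneg (show (0 : ℝ) ≤ 0.8 by norm_num) 6
    refine le_trans ?_ this
    norm_num [Finset.sum_range_succ, Nat.factorial]
  rw [e2, pow_one]
  nlinarith

omit [DecidableEq K] in
/-- The height of `ξ⁶ / Δ`. -/
theorem height_six {S : Finset (NV K)} (hS : Big W S) (x : K) :
    logHeight₁ ((x + W.b₂ / 12) ^ 6 / W.Δ) ≤ 6 * APh W S x 1 + 28 * totalWeight K := by
  have hΔ : W.Δ ≠ 0 := W.isUnit_Δ.ne_zero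
  have h6 : (6 : K) ≠ 0 := by norm_num
  have h : x ≠ 0 ∨ (1 : K) ≠ 0 := Or.inr one_ne_zero
  have h' : (x + W.b₂ / 12) ^ 6 ≠ 0 ∨ W.Δ ≠ 0 := Or.inr hΔ
  rw [logHeight₁_div_eq_logHeight]
  have key := compare6 h h' S (fun v hv => by
    have hna := isNonarchimedean v.val v.2
    have a1 : (1 : ℝ) ≤ nm v.val 1 x 1 := by
      refine le_trans ?_ (le_max_right _ _)
      simp
    have a2 : v.val (x + W.b₂ / 12) ≤ nm v.val 1 x 1 := by
      refine (hna _ _).trans (max_le (le_max_left _ _) ?_)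
      exact (hS.b2 v hv).trans a1
    have a3 : nm v.val 1 ((x + W.b₂ / 12) ^ 6) W.Δ ≤ nm v.val 1 x 1 ^ 6 := by
      rw [nm, map_pow, one_mul, hS.disc v hv]
      exact max_le (pow_le_pow_left₀ (v.val.nonneg _) a2 6) (one_le_pow₀ a1)
    have := Real.log_le_log (nm_pos v.val one_pos h') a3
    rw [Real.log_pow] at this
    push_cast at this
    exact this)
  have hA : asum K (fun v => Real.log (nm v 1 ((x + W.b₂ / 12) ^ 6) W.Δ)) ≤
      asum K (fun v => 6 * aloc W v x 1 + 6) :=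
    asum_le fun v hv => aloc_six hΔ (arch_two_three v hv).1 (arch_two_three v hv).2 x
  have hB : ∑ v ∈ S, Real.log (nm v.val 1 ((x + W.b₂ / 12) ^ 6) W.Δ) ≤
      ∑ v ∈ S, (6 * loc W v.val x 1 - 12 * Real.log (v.val 6)) :=
    Finset.sum_le_sum fun v _ => loc_six (isNonarchimedean v.val v.2) hΔ h6 x
  rw [asum_add, asum_mul, asum_const] at hA
  rw [Finset.sum_sub_distrib, ← Finset.mul_sum, ← Finset.mul_sum] at hB
  have hp := log_prod_formula h6 S (fun v hv => hS.six v hv)
  have hA6 : asum K (fun v => Real.log (v 6)) = totalWeight K * Real.log 6 := by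
    rw [← asum_const]
    apply asum_congr
    intro v hv
    have h1 := arch_two_three v hv
    rw [show (6 : K) = 2 * 3 by norm_num, map_mul, h1.1, h1.2]
    norm_num
  have hd : (0 : ℝ) ≤ totalWeight K := Nat.cast_nonneg _
  have h3 := mul_le_mul_of_nonneg_left log_six_le hd
  unfold APh
  rw [asum_sub, Finset.sum_sub_distrib]
  unfold asum at *
  linarith

/-- The modified height is bounded by the canonical height and the height of `j`. -/
theorem APh_le_can {S : Finset (NV K)} (hS : Big W S) (P : W.Point) {H : ℝ}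
    (hH : Tendsto (fun k : ℕ => logHeight ((2 ^ k • P).xRep) / 4 ^ k) atTop (𝓝 H)) :
    APh W S (P.xRep 0) (P.xRep 1) ≤ H + 65 * totalWeight K + 1 / 4 * logHeight₁ W.j := by
  classical
  have hΔ : W.Δ ≠ 0 := W.isUnit_Δ.ne_zero
  have h6 : (6 : K) ≠ 0 := by norm_num
  have h1 := AWt_le_height h6 arch_two_three hS P hH
  have h2 := aconst_le h6 arch_two_three hS (W := W)
  have h3 := (TT_sum W hS).2
  have h4 : asum K (fun v => qa W v P) ≤
      asum K (fun v => 1 / 4 * (if IsAM W v then nj W v else 0)) := by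
    apply asum_le
    intro v _
    unfold qa
    split_ifs with hm
    · have hb := tv_bounds hm.mul hΔ P
      have hn := nj_pos hm.mul
      have : tv W v P * (1 - tv W v P) ≤ 1 / 4 := by nlinarith [sq_nonneg (tv W v P - 1 / 2)]
      nlinarith
    · simp
  have h5 : ∑ v ∈ S, (if IsMul W v.val then nj W v.val * (tv W v.val P * (1 - tv W v.val P))
      else 0) ≤ ∑ v ∈ S, 1 / 4 * (if IsMul W v.val then nj W v.val else 0) := by
    apply Finset.sum_le_sum
    intro v _
    split_ifs with hm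
    · have hb := tv_bounds hm hΔ P
      have hn := nj_pos hm
      have : tv W v.val P * (1 - tv W v.val P) ≤ 1 / 4 := by
        nlinarith [sq_nonneg (tv W v.val P - 1 / 2)]
      nlinarith
    · simp
  rw [asum_mul] at h4
  rw [← Finset.mul_sum] at h5
  have e1 : ∑ x ∈ (Finset.univ : Finset (InfinitePlace K)).disjSum S, TT W x =
      asum K (fun v => if IsAM W v then nj W v else 0) +
        ∑ v ∈ S, (if IsMul W v.val then nj W v.val else 0) := by
    rw [Finset.sum_disjSum, asum_eq]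
    rfl
  rw [e1] at h3
  unfold AWt at h1
  linarith

end Pool.Agent.Helper86.LM
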